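import Pool.Agent.Helper69.RF.Bas

/-! MODULE KRO of project RF (MP_e74dc5_nt): Kronecker theorem and factorisation in cyclotomic
polynomials. -/

set_option autoImplicit false

namespace Pool.Agent.Helper47.RF

open Pool.Agent.Helper69.RF Helper62.Weber Polynomial

/-- a monic integer polynomial all of whose complex roots have absolute value one is a product of
cyclotomic polynomials -/
theorem KRO_fac : ∀ (N : ℕ) (G : ℤ[X]), G.natDegree ≤ N → G.Monic →
    (∀ β : ℂ, aeval β G = 0 → ‖β‖ = 1) →
    ∃ F : Multiset ℕ, (∀ m ∈ F, 0 < m) ∧ G = (F.map (fun m => cyclotomic m ℤ)).prod := by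
  intro N
  induction N with
  | zero =>
    intro G hN hG _
    refine ⟨0, by simp, ?_⟩
    have h : G.natDegree = 0 := by omega
    rw [hG.natDegree_eq_zero.1 h]
    simp
  | succ N ih =>
    intro G hN hG hr
    by_cases h0 : G.natDegree = 0
    · refine ⟨0, by simp, ?_⟩
      rw [hG.natDegree_eq_zero.1 h0]
      simp
    · have hne : G ≠ 0 := hG.ne_zero
      have hmap : (G.map (Int.castRingHom ℂ)).Monic := hG.map _
      have hM : (G.map (Int.castRingHom ℂ)).mahlerMeasure = 1 := by
        rw [mahlerMeasure_eq_leadingCoeff_mul_prod_roots, hmap.leadingCoeff, norm_one, one_mul]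
        apply Multiset.prod_eq_one
        intro x hx
        obtain ⟨β, hβ, rfl⟩ := Multiset.mem_map.1 hx
        have h1 : aeval β G = 0 := by
          have := (mem_roots hmap.ne_zero).1 hβ
          rw [IsRoot.def, eval_map] at this
          exact this
        rw [hr β h1]
        exact max_self 1
      have hX : ¬ X ∣ G := by
        intro h
        obtain ⟨G', rfl⟩ := h
        have := hr 0 (by simp)
        simp at this
      have hd : G.degree ≠ 0 := by
        intro h
        exact h0 (natDegree_eq_of_degree_eq_some h)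
      obtain ⟨n, hn, G', rfl⟩ := cyclotomic_dvd_of_mahlerMeasure_eq_one hM hX hd
      have hc := cyclotomic.monic n ℤ
      have hG' : G'.Monic := hc.of_mul_monic_left hG
      have hdeg : (cyclotomic n ℤ * G').natDegree = n.totient + G'.natDegree := by
        rw [hc.natDegree_mul hG', natDegree_cyclotomic]
      have htot : 0 < n.totient := Nat.totient_pos.2 hn
      obtain ⟨F, hF, hF'⟩ := ih G' (by omega) hG' (fun β hβ => hr β (by rw [map_mul, hβ, mul_zero]))
      refine ⟨n ::ₘ F, ?_, ?_⟩
      · intro m hm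
        rcases Multiset.mem_cons.1 hm with rfl | hm
        · exact hn
        · exact hF m hm
      · rw [Multiset.map_cons, Multiset.prod_cons, ← hF']

/-- the polynomial `z^r P(z + 1/z)` -/
noncomputable def KROG (P : ℤ[X]) : ℤ[X] :=
  ∑ i ∈ Finset.range (P.natDegree + 1), C (P.coeff i) * (X ^ 2 + 1) ^ i * X ^ (P.natDegree - i)

theorem KRO_eval (P : ℤ[X]) (z : ℂ) (hz : z ≠ 0) :
    aeval z (KROG P) = z ^ P.natDegree * aeval (z + z⁻¹) P := by
  unfold KROG
  rw [map_sum, aeval_eq_sum_range, Finset.mul_sum]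
  refine Finset.sum_congr rfl fun i hi => ?_
  have hi' : i ≤ P.natDegree := Nat.lt_succ_iff.1 (Finset.mem_range.1 hi)
  rw [map_mul, map_mul, map_pow, map_pow, map_add, map_pow, aeval_X, map_one, aeval_C, zsmul_eq_mul]
  have h1 : z ^ P.natDegree = z ^ (P.natDegree - i) * z ^ i := by
    rw [← pow_add, Nat.sub_add_cancel hi']
  have h2 : z ^ i * (z + z⁻¹) ^ i = (z ^ 2 + 1) ^ i := by
    rw [← mul_pow]
    congr 1
    field_simp
  have h3 : (algebraMap ℤ ℂ) (P.coeff i) = ((P.coeff i : ℤ) : ℂ) := rfl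
  rw [h1, h3, ← h2]
  ring

theorem KRO_eval0 (P : ℤ[X]) : aeval (0 : ℂ) (KROG P) = (P.leadingCoeff : ℂ) := by
  unfold KROG
  rw [map_sum, Finset.sum_range_succ, Finset.sum_eq_zero]
  · simp
  · intro i hi
    have hi' : i < P.natDegree := Finset.mem_range.1 hi
    have h : P.natDegree - i ≠ 0 := by omega
    simp [h]

theorem KRO_monic (P : ℤ[X]) (h : P.leadingCoeff * P.leadingCoeff = 1) :
    (C P.leadingCoeff * KROG P).Monic := by
  have hM : ((X ^ 2 + 1 : ℤ[X])).Monic := by monicity!
  have hMd : ((X ^ 2 + 1 : ℤ[X])).natDegree = 2 := by compute_degree!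
  have hMr := hM.pow P.natDegree
  have hMrd : ((X ^ 2 + 1 : ℤ[X]) ^ P.natDegree).natDegree = P.natDegree * 2 := by
    rw [hM.natDegree_pow, hMd]
  have e : C P.leadingCoeff * KROG P = (X ^ 2 + 1) ^ P.natDegree +
      ∑ i ∈ Finset.range P.natDegree,
        C P.leadingCoeff * (C (P.coeff i) * (X ^ 2 + 1) ^ i * X ^ (P.natDegree - i)) := by
    unfold KROG
    rw [Finset.sum_range_succ, mul_add, Finset.mul_sum, add_comm, Nat.sub_self, pow_zero, mul_one,
      ← mul_assoc, ← C_mul, coeff_natDegree, h, C_1, one_mul]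
  rw [e]
  refine hMr.add_of_left ?_
  rw [degree_eq_natDegree hMr.ne_zero, hMrd]
  refine lt_of_le_of_lt (degree_sum_le _ _) ?_
  rw [Finset.sup_lt_iff (WithBot.bot_lt_coe _)]
  intro i hi
  have hi' : i < P.natDegree := Finset.mem_range.1 hi
  have h1 : (C P.leadingCoeff * (C (P.coeff i) * (X ^ 2 + 1) ^ i *
      X ^ (P.natDegree - i))).natDegree ≤ i * 2 + (P.natDegree - i) := by
    refine natDegree_mul_le.trans ?_
    rw [natDegree_C, zero_add]
    refine natDegree_mul_le.trans ?_
    refine Nat.add_le_add ?_ ?_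
    · refine natDegree_mul_le.trans ?_
      rw [natDegree_C, zero_add, hM.natDegree_pow, hMd]
    · exact natDegree_X_pow_le _
  refine lt_of_le_of_lt degree_le_natDegree ?_
  exact_mod_cast lt_of_le_of_lt h1 (by omega)

theorem cKRO : KRO := by
  intro P hP hroot
  have haa : P.leadingCoeff * P.leadingCoeff = 1 := by
    rcases hP with h | h <;> rw [h] <;> norm_num
  have haC : (P.leadingCoeff : ℂ) * (P.leadingCoeff : ℂ) = 1 := by exact_mod_cast haa
  have ha0 : (P.leadingCoeff : ℂ) ≠ 0 := by
    intro h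
    rw [h, mul_zero] at haC
    exact zero_ne_one haC
  have hev : ∀ z : ℂ, z ≠ 0 → aeval z (C P.leadingCoeff * KROG P) =
      (P.leadingCoeff : ℂ) * (z ^ P.natDegree * aeval (z + z⁻¹) P) := by
    intro z hz
    rw [map_mul, aeval_C, KRO_eval P z hz]
    rfl
  have hr : ∀ β : ℂ, aeval β (C P.leadingCoeff * KROG P) = 0 → ‖β‖ = 1 := by
    intro β hβ
    by_cases h0 : β = 0
    · rw [h0, map_mul, aeval_C, KRO_eval0] at hβ
      exact absurd (haC.symm.trans hβ) one_ne_zero
    · rw [hev β h0] at hβ
      rcases mul_eq_zero.1 hβ with h | h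
      · exact absurd h ha0
      · rcases mul_eq_zero.1 h with h | h
        · exact absurd h (pow_ne_zero _ h0)
        · exact hroot β h0 h
  obtain ⟨F, hF, hF'⟩ := KRO_fac _ _ le_rfl (KRO_monic P haa) hr
  refine ⟨F, hF, fun z hz => ?_⟩
  have h1 := hev z hz
  rw [hF', map_multiset_prod, Multiset.map_map] at h1
  have h2 : (F.map (fun m => aeval z (cyclotomic m ℤ))).prod =
      (P.leadingCoeff : ℂ) * (z ^ P.natDegree * aeval (z + z⁻¹) P) := h1
  rw [h2, ← mul_assoc, haC, one_mul]

end Pool.Agent.Helper47.RF
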